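import Mathlib

/-!
# MP_c8f462_al: definitions

The local semigroup ring of a numerical semigroup and its tangent cone, in the words of the
problem.
-/

set_option autoImplicit false

namespace Pool.Agent.H3.HSD

/-- `g 0 < ... < g e` is the minimal generating set of the numerical semigroup `Γ` -/
structure IsMinGen (Γ : AddSubmonoid ℕ) {e : ℕ} (g : Fin (e + 1) → ℕ) : Prop where
  /-- `Γ` is a numerical semigroup -/
  cofinite : {n : ℕ | n ∉ Γ}.Finite
  mono : StrictMono g
  gen : AddSubmonoid.closure (Set.range g) = Γ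
  min : ∀ i, g i ∉ AddSubmonoid.closure (g '' {j | j ≠ i})

/-- the local semigroup ring `k[[τ^γ : γ ∈ Γ]]`: the power series in `τ` with exponents in `Γ` -/
def Ring (k : Type) [Field k] (Γ : AddSubmonoid ℕ) : Subring (PowerSeries k) where
  carrier := {f | ∀ n, n ∉ Γ → PowerSeries.coeff n f = 0}
  zero_mem' := fun _ _ => by simp
  one_mem' := fun n hn => by
    rw [PowerSeries.coeff_one, if_neg]
    rintro rfl
    exact hn Γ.zero_mem
  add_mem' := fun {a b} ha hb n hn => by rw [map_add, ha n hn, hb n hn, add_zero]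
  neg_mem' := fun {a} ha n hn => by rw [map_neg, ha n hn, neg_zero]
  mul_mem' := fun {a b} ha hb n hn => by
    rw [PowerSeries.coeff_mul]
    refine Finset.sum_eq_zero fun q hq => ?_
    by_cases h1 : q.1 ∈ Γ
    · by_cases h2 : q.2 ∈ Γ
      · exact absurd (Finset.HasAntidiagonal.mem_antidiagonal.1 hq ▸ Γ.add_mem h1 h2) hn
      · rw [hb _ h2, mul_zero]
    · rw [ha _ h1, zero_mul]

/-- its maximal ideal: zero constant term -/
noncomputable def mid (k : Type) [Field k] (Γ : AddSubmonoid ℕ) : Ideal (Ring k Γ) :=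
  RingHom.ker ((PowerSeries.constantCoeff (R := k)).comp (Ring k Γ).subtype)

/-- `F(τ^(g 0), ..., τ^(g e))` as a power series -/
noncomputable def ev (k : Type) [Field k] {e : ℕ} (g : Fin (e + 1) → ℕ)
    (F : MvPolynomial (Fin (e + 1)) k) : PowerSeries k :=
  MvPolynomial.aeval (fun i => (PowerSeries.X : PowerSeries k) ^ g i) F

/-- the kernel of `k[x_0, ..., x_e] → G = ⊕ m^n / m^(n+1)`, `x_i ↦ τ^(g i) + m^2`: it is spanned by the
forms `F` of degree `n` (any `n`) with `F(τ^(g 0), ..., τ^(g e)) ∈ m^(n+1)` -/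
noncomputable def Ker (k : Type) [Field k] (Γ : AddSubmonoid ℕ) {e : ℕ} (g : Fin (e + 1) → ℕ) :
    Ideal (MvPolynomial (Fin (e + 1)) k) :=
  Ideal.span {F | ∃ n : ℕ, F.IsHomogeneous n ∧ ∃ r ∈ mid k Γ ^ (n + 1), (r : PowerSeries k) = ev k g F}

end Pool.Agent.H3.HSD
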